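import Mathlib

/-!
The connector of the connected-sum proof and its transport relations.
-/

open Finset

namespace Pool.Agent.P.MP_aa79fc_nt

variable {K : Type*} [Field K]

/-- The q-Pochhammer symbol with base point a power of `p`. -/
def poch (p : K) (a d : ℕ) : K := ∏ i ∈ range d, (1 - p ^ (a + i))

theorem poch_succ (p : K) (a d : ℕ) : poch p a (d + 1) = poch p a d * (1 - p ^ (a + d)) :=
  prod_range_succ _ _

theorem poch_succ' (p : K) (a d : ℕ) : poch p a (d + 1) = (1 - p ^ a) * poch p (a + 1) d := by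
  unfold poch
  rw [prod_range_succ', mul_comm]
  congr 1
  refine prod_congr rfl fun i _ => ?_
  congr 2; ring

theorem poch_zero (p : K) (a : ℕ) : poch p a 0 = 1 := by simp [poch]

theorem poch_ne_zero {p : K} (hp : ∀ m : ℕ, 0 < m → 1 - p ^ m ≠ 0) {a : ℕ} (ha : 0 < a) (d : ℕ) :
    poch p a d ≠ 0 := prod_ne_zero_iff.2 fun i _ => hp _ (by omega)

/-- The difference of the connector. -/
def E (p : K) (d a b : ℕ) : K := p ^ (a * b) * poch p a d * poch p (b + 1) d / poch p 1 d

/-- The summand of the connector. -/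
def t (p : K) (d a b : ℕ) : K := p ^ (a * b + d) * poch p a d * poch p b d / poch p 1 d

/-- The connector. -/
def g (p : K) (d a b : ℕ) : K := ∑ j ∈ range (d + 1), t p j a b

theorem t_symm (p : K) (d a b : ℕ) : t p d a b = t p d b a := by
  unfold t; rw [mul_comm a b]; ring

theorem g_symm (p : K) (d a b : ℕ) : g p d a b = g p d b a :=
  sum_congr rfl fun _ _ => t_symm _ _ _ _

theorem E_step {p : K} (hp : ∀ m : ℕ, 0 < m → 1 - p ^ m ≠ 0) (d a b : ℕ) :
    E p (d + 1) a b + t p d a (b + 1) = E p d a b + t p (d + 1) a b := by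
  unfold E t
  have h1 := poch_ne_zero hp one_pos d
  have h2 := hp (1 + d) (by omega)
  rw [poch_succ p a d, poch_succ p (b + 1) d, poch_succ p 1 d, poch_succ' p b d]
  field_simp
  ring

theorem g_step {p : K} (hp : ∀ m : ℕ, 0 < m → 1 - p ^ m ≠ 0) (d a b : ℕ) :
    g p (d + 1) a b = g p d a (b + 1) + E p (d + 1) a b := by
  induction d with
  | zero =>
    have := E_step hp 0 a b
    simp only [g, sum_range_succ, sum_range_zero, zero_add] at this ⊢
    have e : E p 0 a b = t p 0 a b := by simp [E, t, poch_zero]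
    linear_combination -this - e
  | succ d ih =>
    have := E_step hp (d + 1) a b
    have e1 : g p (d + 1 + 1) a b = g p (d + 1) a b + t p (d + 1 + 1) a b := sum_range_succ _ _
    have e2 : g p (d + 1) a (b + 1) = g p d a (b + 1) + t p (d + 1) a (b + 1) := sum_range_succ _ _
    rw [e1, e2, ih]
    linear_combination -this

theorem sum_E {p : K} (hp : ∀ m : ℕ, 0 < m → 1 - p ^ m ≠ 0) (d a b : ℕ) :
    ∑ i ∈ range (d + 1), E p i a (b + (d - i)) = g p d a b := by
  induction d generalizing b with
  | zero => simp [g, E, t, poch_zero]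
  | succ d ih =>
    rw [sum_range_succ, g_step hp, ← ih (b + 1)]
    simp only [Nat.sub_self, add_zero]
    congr 1
    refine sum_congr rfl fun i hi => ?_
    have := mem_range.1 hi
    congr 1; omega

theorem sum_E' {p : K} (hp : ∀ m : ℕ, 0 < m → 1 - p ^ m ≠ 0) (d a b : ℕ) :
    ∑ i ∈ range (d + 1), E p (d - i) b (a + i) = g p d a b := by
  rw [g_symm, ← sum_E hp, ← sum_range_reflect]
  refine sum_congr rfl fun i hi => ?_
  have := mem_range.1 hi
  congr 1; omega

theorem g_zero_right (p : K) (d a : ℕ) : g p d a 0 = 1 := by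
  unfold g
  rw [sum_range_succ', sum_eq_zero]
  · simp [t, poch_zero]
  · intro i _
    simp [t, poch_succ']

theorem E_zero_left (p : K) (d b : ℕ) : E p (d + 1) 0 b = 0 := by
  simp [E, poch_succ']

theorem E_zero_zero (p : K) (b : ℕ) : E p 0 0 b = 1 := by
  simp [E, poch_zero]

theorem transport1 (p : K) (d a b : ℕ) :
    p ^ a * (1 - p ^ (a + d)) * E p d a b = (1 - p ^ a) * E p d (b + 1) a := by
  unfold E
  have h := poch_succ p a d
  rw [poch_succ'] at h
  have e : p ^ ((b + 1) * a) = p ^ a * p ^ (a * b) := by rw [← pow_add]; congr 1; ring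
  rw [e]
  linear_combination (p ^ a * p ^ (a * b) * poch p (b + 1) d / poch p 1 d) * (-h)

theorem transport2 (p : K) (d a b : ℕ) :
    (1 - p ^ b) * (1 - p ^ (a + d)) * E p d a b = (1 - p ^ a) * (1 - p ^ (b + d)) * E p d b a := by
  unfold E
  have h := poch_succ p a d
  rw [poch_succ'] at h
  have h' := poch_succ p b d
  rw [poch_succ'] at h'
  rw [mul_comm b a]
  linear_combination (p ^ (a * b) / poch p 1 d) * ((1 - p ^ (a + d)) * poch p a d * h'
    - (1 - p ^ (b + d)) * poch p b d * h)

end Pool.Agent.P.MP_aa79fc_nt
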