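import Pool.Agent.P.MP_aa79fc_nt.Conn

/-!
The connected-sum proof of the inversion symmetry.
-/

open Finset

namespace Pool.Agent.P.MP_aa79fc_nt

variable {K : Type*} [Field K]

/-- The factor attached to a letter (0 is x, 1 is y, 2 is z). -/
def Fac (q : K) (N : ℕ) (c : Fin 3) (m a b : ℕ) : K :=
  if c = 0 then 1 / (1 - q ^ ((m : ℤ) + a))
  else if c = 1 then -1 / (1 - q ^ ((m : ℤ) - N - b))
  else 1 / (1 - q ^ ((m : ℤ) + a)) - 1 / (1 - q ^ ((m : ℤ) - N - b))

/-- Number of letters y up to position `j`. -/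
def cA {k : ℕ} (u : Fin k → Fin 3) (j : Fin k) : ℕ := #{h | h ≤ j ∧ u h = 1}

/-- Number of letters x from position `j` on. -/
def cB {k : ℕ} (u : Fin k → Fin 3) (j : Fin k) : ℕ := #{h | j ≤ h ∧ u h = 0}

/-- Number of letters x. -/
def cX {k : ℕ} (u : Fin k → Fin 3) : ℕ := #{h | u h = 0}

/-- The sum with a lower bound and an offset. -/
noncomputable def Zg (q : K) (N A : ℕ) {k : ℕ} (u : Fin k → Fin 3) (lo : ℕ) : K :=
  open scoped Classical in
  ∑ n ∈ univ.filter (fun n : Fin k → Fin (N + 1) => Monotone n ∧ ∀ j, lo ≤ (n j).val),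
    ∏ j, Fac q N (u j) (n j) (A + cA u j) (cB u j)

theorem cA_zero {k : ℕ} (u : Fin (k + 1) → Fin 3) : cA u 0 = if u 0 = 1 then 1 else 0 := by
  unfold cA
  rw [card_filter, Fin.sum_univ_succ]
  simp

theorem cA_succ {k : ℕ} (u : Fin (k + 1) → Fin 3) (j : Fin k) :
    cA u j.succ = (if u 0 = 1 then 1 else 0) + cA (Fin.tail u) j := by
  unfold cA
  rw [card_filter, card_filter, Fin.sum_univ_succ]
  simp [Fin.tail, -sum_boole]
  rfl

theorem cB_zero {k : ℕ} (u : Fin (k + 1) → Fin 3) : cB u 0 = cX u := by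
  unfold cB cX
  simp

theorem cB_succ {k : ℕ} (u : Fin (k + 1) → Fin 3) (j : Fin k) :
    cB u j.succ = cB (Fin.tail u) j := by
  unfold cB
  rw [card_filter, card_filter, Fin.sum_univ_succ]
  simp [Fin.tail, -sum_boole]
  rfl

theorem cX_succ {k : ℕ} (u : Fin (k + 1) → Fin 3) :
    cX u = (if u 0 = 0 then 1 else 0) + cX (Fin.tail u) := by
  unfold cX
  rw [card_filter, card_filter, Fin.sum_univ_succ]
  simp [Fin.tail, -sum_boole]
  rfl

theorem Zg_zero (q : K) (N A : ℕ) (u : Fin 0 → Fin 3) (lo : ℕ) : Zg q N A u lo = 1 := by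
  unfold Zg
  rw [sum_filter]
  simp [Monotone]

theorem Zg_succ (q : K) (N A : ℕ) {k : ℕ} (u : Fin (k + 1) → Fin 3) (lo : ℕ) :
    Zg q N A u lo = ∑ m ∈ Ico lo (N + 1),
      Fac q N (u 0) m (A + if u 0 = 1 then 1 else 0) (cX u) *
        Zg q N (A + if u 0 = 1 then 1 else 0) (Fin.tail u) m := by
  classical
  unfold Zg
  rw [sum_filter, ← (Fin.consEquiv fun _ : Fin (k + 1) => Fin (N + 1)).sum_comp,
    Fintype.sum_prod_type]
  have e : ∀ f : ℕ → K, ∑ m ∈ Ico lo (N + 1), f m =
      ∑ m : Fin (N + 1), if lo ≤ (m : ℕ) then f m else 0 := by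
    intro f
    rw [Fin.sum_univ_eq_sum_range (fun m => if lo ≤ m then f m else 0), ← sum_filter]
    refine sum_congr ?_ fun _ _ => rfl
    ext m; simp [and_comm]
  rw [e]
  refine sum_congr rfl fun m _ => ?_
  have hmono : ∀ n : Fin k → Fin (N + 1),
      (Monotone (Fin.cons m n : Fin (k + 1) → Fin (N + 1)) ∧
        ∀ j, lo ≤ ((Fin.cons m n : Fin (k + 1) → Fin (N + 1)) j : ℕ)) ↔
      lo ≤ (m : ℕ) ∧ (Monotone n ∧ ∀ j, (m : ℕ) ≤ (n j : ℕ)) := by
    intro n
    constructor
    · rintro ⟨h1, h2⟩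
      refine ⟨by simpa using h2 0, fun i j hij => ?_, fun j => ?_⟩
      · simpa using h1 (Fin.succ_le_succ_iff.2 hij)
      · simpa using h1 (Fin.zero_le j.succ)
    · rintro ⟨h1, h2, h3⟩
      refine ⟨fun i j hij => ?_, fun j => ?_⟩
      · induction i using Fin.cases with
        | zero =>
          induction j using Fin.cases with
          | zero => exact le_rfl
          | succ j => simpa using h3 j
        | succ i =>
          induction j using Fin.cases with
          | zero => exact absurd hij (by simp)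
          | succ j => simpa using h2 (Fin.succ_le_succ_iff.1 hij)
      · induction j using Fin.cases with
        | zero => simpa using h1
        | succ j => simpa using h1.trans (h3 j)
  have hce : ∀ n : Fin k → Fin (N + 1), (Fin.consEquiv fun _ : Fin (k + 1) => Fin (N + 1)) (m, n)
      = (Fin.cons m n : Fin (k + 1) → Fin (N + 1)) := fun _ => rfl
  simp only [hce, hmono]
  by_cases hm : lo ≤ (m : ℕ)
  · simp only [hm, true_and, if_true, sum_filter, mul_sum]
    refine sum_congr rfl fun n _ => ?_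
    split_ifs
    all_goals first
      | simp; done
      | (rw [Fin.prod_univ_succ]
         simp [cA_zero, cA_succ, cB_zero, cB_succ, Fin.tail, add_assoc, *])
  · simp [hm]

theorem term {p : K} (h0 : p ≠ 0) (hp : ∀ m : ℕ, 0 < m → 1 - p ^ m ≠ 0) (N A B n m : ℕ) (c : Fin 3)
    (hnm : n ≤ m) (hm : m ≤ N) (hA : c = 1 ∨ 0 < A) (hB : c = 0 ∨ 0 < B) :
    Fac p⁻¹ N c n (A + if c = 1 then 1 else 0) ((if c = 0 then 1 else 0) + B) *
        E p (m - n) (n + (A + if c = 1 then 1 else 0)) (N - m + B) =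
      E p (m - n) (N - m + ((if c = 0 then 1 else 0) + B)) (n + A) *
        (-Fac p N c m (A + if c = 1 then 1 else 0) ((if c = 0 then 1 else 0) + B)) := by
  obtain ⟨d, rfl⟩ := Nat.exists_eq_add_of_le hnm
  obtain ⟨e, rfl⟩ := Nat.exists_eq_add_of_le hm
  simp only [Nat.add_sub_cancel_left]
  have z1 : ∀ a : ℕ, p⁻¹ ^ ((n : ℤ) + a) = (p ^ (n + a))⁻¹ := fun a => by
    rw [inv_zpow, ← zpow_natCast]; push_cast; rfl
  have z2 : ∀ b : ℕ, p⁻¹ ^ ((n : ℤ) - (n + d + e : ℕ) - b) = p ^ (e + b + d) := fun b => by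
    rw [inv_zpow', ← zpow_natCast]; congr 1; push_cast; ring
  have z3 : ∀ a : ℕ, p ^ (((n + d : ℕ) : ℤ) + a) = p ^ (n + a + d) := fun a => by
    rw [← zpow_natCast]; congr 1; push_cast; ring
  have z4 : ∀ b : ℕ, p ^ (((n + d : ℕ) : ℤ) - (n + d + e : ℕ) - b) = (p ^ (e + b))⁻¹ := fun b => by
    rw [← zpow_natCast, ← zpow_neg]; congr 1; push_cast; ring
  have y1 : ∀ a : ℕ, 0 < a → 1 / (1 - (p ^ a)⁻¹) = -(p ^ a / (1 - p ^ a)) := fun a ha => by
    have h1 := hp a ha
    have h2 : p ^ a ≠ 0 := pow_ne_zero _ h0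
    have h3 : p ^ a - 1 ≠ 0 := fun h => h1 (by linear_combination -h)
    field_simp
    ring
  unfold Fac
  rw [z1, z2, z3, z4]
  have hc : c = 0 ∨ c = 1 ∨ c = 2 := by omega
  rcases hc with rfl | rfl | rfl
  · have hA' : 0 < A := by simpa using hA
    simp only [if_true, show ((0 : Fin 3) = 1) = False by simp, if_false, add_zero]
    rw [y1 _ (by omega)]
    have := transport1 p d (n + A) (e + B)
    have h1 := hp (n + A) (by omega)
    have h2 := hp (n + A + d) (by omega)
    rw [show e + (1 + B) = e + B + 1 by ring]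
    field_simp
    linear_combination -this
  · have hB' : 0 < B := by simpa using hB
    simp only [if_true, show ((1 : Fin 3) = 0) = False by simp, if_false, zero_add]
    rw [neg_div, neg_div, y1 _ (by omega)]
    have := transport1 p d (e + B) (n + A)
    have h1 := hp (e + B) (by omega)
    have h2 := hp (e + B + d) (by omega)
    rw [show n + (A + 1) = n + A + 1 by ring]
    field_simp
    linear_combination this
  · have hA' : 0 < A := by simpa using hA
    have hB' : 0 < B := by simpa using hB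
    simp only [show ((2 : Fin 3) = 0) = False by simp, show ((2 : Fin 3) = 1) = False by simp,
      if_false, zero_add, add_zero]
    rw [y1 _ (by omega), y1 _ (by omega)]
    have := transport2 p d (n + A) (e + B)
    have h1 := hp (e + B) (by omega)
    have h2 := hp (e + B + d) (by omega)
    have h3 := hp (n + A) (by omega)
    have h4 := hp (n + A + d) (by omega)
    field_simp
    linear_combination (p ^ (n + A) * p ^ (e + B) * p ^ d - 1) * this

theorem swap_sum (f : ℕ → ℕ → K) (n M : ℕ) :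
    ∑ m ∈ Ico n M, ∑ l ∈ Ico m M, f m l = ∑ l ∈ Ico n M, ∑ m ∈ Ico n (l + 1), f m l := by
  refine sum_comm' fun m l => ?_
  simp only [mem_Ico]
  omega

theorem main {p : K} (h0 : p ≠ 0) (hp : ∀ m : ℕ, 0 < m → 1 - p ^ m ≠ 0) (N : ℕ) (k : ℕ) :
    ∀ (u : Fin k → Fin 3) (A : ℕ), (0 < A ∨ ∀ j : Fin k, j.val = 0 → u j = 1) →
      (∀ j : Fin k, j.val + 1 = k → u j = 0) → ∀ n, n ≤ N →
      Zg p⁻¹ N A u n = ∑ m ∈ Ico n (N + 1),
        E p (m - n) (n + A) (N - m + cX u) * ((-1) ^ k * Zg p N A u m) := by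
  induction k with
  | zero =>
    intro u A _ _ n hn
    have hx : cX u = 0 := by simp [cX]
    simp only [Zg_zero, pow_zero, mul_one, hx, add_zero]
    rw [sum_Ico_eq_sum_range, ← g_zero_right p (N - n) (n + A), ← sum_E hp,
      show N + 1 - n = N - n + 1 by omega]
    refine sum_congr rfl fun i hi => ?_
    have := mem_range.1 hi
    congr 1 <;> omega
  | succ k ih =>
    intro u A hA hB n hn
    have hA1 : u 0 = 1 ∨ 0 < A := by
      rcases hA with h | h
      · exact Or.inr h
      · exact Or.inl (h 0 rfl)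
    have hB1 : u 0 = 0 ∨ 0 < cX (Fin.tail u) := by
      rcases Nat.eq_zero_or_pos k with rfl | hk
      · exact Or.inl (hB 0 rfl)
      · right
        refine card_pos.2 ⟨⟨k - 1, by omega⟩, ?_⟩
        simp only [mem_filter, mem_univ, true_and, Fin.tail]
        exact hB _ (by simp; omega)
    set A1 := A + (if u 0 = 1 then 1 else 0) with hA1def
    have hA2 : 0 < A1 := by
      rcases hA1 with h | h
      · simp [hA1def, h]
      · omega
    have ih' := ih (Fin.tail u) A1 (Or.inl hA2) (fun j hj => hB j.succ (by simp; omega))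
    simp only [Zg_succ _ N A u]
    rw [← hA1def]
    have step1 : ∑ m ∈ Ico n (N + 1), Fac p⁻¹ N (u 0) m A1 (cX u) * Zg p⁻¹ N A1 (Fin.tail u) m
        = ∑ m ∈ Ico n (N + 1), ∑ l ∈ Ico m (N + 1), E p (l - m) (N - l + cX u) (m + A) *
          ((-1) ^ (k + 1) * (Fac p N (u 0) l A1 (cX u) * Zg p N A1 (Fin.tail u) l)) := by
      refine sum_congr rfl fun m hm => ?_
      have hm' := mem_Ico.1 hm
      rw [ih' m (by omega), mul_sum]
      refine sum_congr rfl fun l hl => ?_
      have hl' := mem_Ico.1 hl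
      have := term h0 hp N A (cX (Fin.tail u)) m l (u 0) hl'.1 (by omega) hA1 hB1
      rw [← cX_succ, ← hA1def] at this
      rw [← mul_assoc, this]
      ring
    rw [step1, swap_sum]
    simp only [mul_sum]
    rw [swap_sum]
    refine sum_congr rfl fun l hl => ?_
    have hl' := mem_Ico.1 hl
    rw [← sum_mul, ← sum_mul, sum_Ico_eq_sum_range, sum_Ico_eq_sum_range,
      show l + 1 - n = l - n + 1 by omega]
    congr 1
    have e1 := sum_E hp (l - n) (n + A) (N - l + cX u)
    have e2 := sum_E' hp (l - n) (n + A) (N - l + cX u)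
    refine Eq.trans ?_ (e2.trans (e1.symm.trans ?_))
    · refine sum_congr rfl fun i hi => ?_
      have := mem_range.1 hi
      congr 1 <;> omega
    · refine sum_congr rfl fun i hi => ?_
      have := mem_range.1 hi
      congr 1 <;> omega

theorem final {p : K} (h0 : p ≠ 0) (hp : ∀ m : ℕ, 0 < m → 1 - p ^ m ≠ 0) (N k : ℕ)
    (u : Fin k → Fin 3) (hy : ∀ j : Fin k, j.val = 0 → u j = 1)
    (hx : ∀ j : Fin k, j.val + 1 = k → u j = 0) :
    Zg p⁻¹ N 0 u 0 = (-1) ^ k * Zg p N 0 u 0 := by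
  rw [main h0 hp N k u 0 (Or.inr hy) hx 0 (Nat.zero_le _), ← range_eq_Ico, sum_range_succ',
    sum_eq_zero]
  · simp [E_zero_zero]
  · intro i _
    simp [E_zero_left]

end Pool.Agent.P.MP_aa79fc_nt
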